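import Pool.Agent.helper64.D2.SpecS

set_option autoImplicit false

open Filter Topology
open scoped commutatorElement

namespace Pool.Agent.helper64.D2

theorem KTH_cd (hSM1 : SM1_stmt) (hSM2 : SM2_stmt) (c : ℕ → DD) (hc : Adm c) :
    ContDiff ℝ 2 (thf c) := by
  obtain ⟨h, h1, h2, h3, h4, h5, h6, h7⟩ := hSM1 c hc
  have hW := hSM2 h h1 h3 h4 h5 h6 h7
  have e : (fun x : ℝ => (⌊x⌋ : ℝ) + kk (h (uu (Int.fract x)))) = thf c := by
    funext x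
    have hx : Int.fract x ∈ Set.Ico (0 : ℝ) 1 := ⟨Int.fract_nonneg x, Int.fract_lt_one x⟩
    unfold thf
    rw [h2 _ (uu_ge _ hx)]
  rw [e] at hW
  exact hW

theorem KTH_mem (hADM : ADM_stmt) (hSM1 : SM1_stmt) (hSM2 : SM2_stmt) (c : ℕ → DD) (hc : Adm c) :
    Th c ∈ G2 := by
  refine ⟨?_, ?_⟩
  · exact KTH_cd hSM1 hSM2 c hc
  · have e : (Th c)⁻¹ = Th c⁻¹ := (map_inv Th c).symm
    rw [e]
    exact KTH_cd hSM1 hSM2 c⁻¹ (hADM.2.1 c hc)

theorem KTH (hADM : ADM_stmt) (hSM1 : SM1_stmt) (hSM2 : SM2_stmt) (hTTT : TTT_stmt) : KTH_stmt := by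
  refine ⟨fun c hc => KTH_mem hADM hSM1 hSM2 c hc, ?_⟩
  obtain ⟨T, hT, hT2⟩ := hTTT
  have key : K0 ≤ Subgroup.comap Th ⁅G2, G2⁆ := by
    unfold K0
    rw [Subgroup.closure_le]
    rintro z (⟨a, b, ha, hb, rfl⟩ | ⟨c, hc, rfl⟩)
    · show Th (a * b * a⁻¹ * b⁻¹) ∈ ⁅G2, G2⁆
      have e : Th (a * b * a⁻¹ * b⁻¹) = ⁅Th a, Th b⁆ := by
        rw [commutatorElement_def, map_mul, map_mul, map_mul, map_inv, map_inv]
      rw [e]
      exact Subgroup.commutator_mem_commutator (KTH_mem hADM hSM1 hSM2 a ha)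
        (KTH_mem hADM hSM1 hSM2 b hb)
    · show Th (sh c * c⁻¹) ∈ ⁅G2, G2⁆
      have e : Th (sh c * c⁻¹) = ⁅T, Th c⁆ := by
        rw [commutatorElement_def, map_mul, map_inv, ← hT2 c hc.1]
      rw [e]
      exact Subgroup.commutator_mem_commutator hT (KTH_mem hADM hSM1 hSM2 c hc)
  intro z hz
  exact key hz

end Pool.Agent.helper64.D2
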